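import Pool.Agent.Results.MP_537c9d_co.OneAtAnEnd

/-!
# Positions of the terms of a weakly consecutive sequence (MP_a4c3d5_co, Q1)

For every weakly consecutive sequence `σ` of length `k` and every `m ∈ [k]`, the value `m` is
among the first `m` or among the last `m` entries. The case `m = 1` is the theorem of
`Pool.Agent.Results.MP_537c9d_co.OneAtAnEnd`; the general case is deduced by division slices.
-/

set_option autoImplicit false

namespace Pool.Agent.Results.MP_a4c3d5_co.SmallTermsNearEnds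

/-- `σ` restricts to a permutation of `[k] = {1, …, k}` and is weakly consecutive: for all
`i, j ∈ [k]` and all positive integers `m`, if `m ∣ σ i` and `m ∣ i - j` then `m ∣ σ j`. -/
def IsWCS (k : ℕ) (σ : ℕ → ℕ) : Prop :=
  Set.BijOn σ (Set.Icc 1 k) (Set.Icc 1 k) ∧
    ∀ i ∈ Set.Icc 1 k, ∀ j ∈ Set.Icc 1 k, ∀ m : ℕ, 0 < m →
      m ∣ σ i → (m : ℤ) ∣ (i : ℤ) - (j : ℤ) → m ∣ σ j

lemma toOld {k : ℕ} {σ : ℕ → ℕ} (h : IsWCS k σ) :
    Pool.Agent.Results.MP_537c9d_co.OneAtAnEnd.IsWCS k σ :=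
  ⟨h.1, fun m hm i hi j hj h1 h2 => h.2 i hi j hj m (Set.mem_Icc.1 hm).1 h1 h2⟩

/-- Q1: in a weakly consecutive sequence of length `k`, every value `m ∈ [k]` (in particular every
`m < k / 2`) occurs among the first `m` or among the last `m` entries. -/
theorem result (k : ℕ) (σ : ℕ → ℕ) (hσ : IsWCS k σ) (m : ℕ) (hm : 1 ≤ m) (hmk : m ≤ k) :
    ∀ i ∈ Set.Icc 1 k, σ i = m → i ∈ Set.Icc 1 m ∨ i ∈ Set.Icc (k - m + 1) k := by
  intro i hi him
  have h := toOld hσ
  obtain ⟨hi1, hi2⟩ := Set.mem_Icc.1 hi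
  set a := (i - 1) % m + 1 with ha
  have ham : a ≤ m := by
    have := Nat.mod_lt (i - 1) (by omega : 0 < m)
    omega
  set n := k / m with hn
  have hkm : n * m ≤ k := Nat.div_mul_le_self k m
  have hn1 : 1 ≤ n := (Nat.one_le_div_iff (by omega)).2 hmk
  have hai : i ≡ a [MOD m] := by
    have h5 : (i - 1) % m ≡ i - 1 [MOD m] := Nat.mod_modEq _ _
    have h6 : (i - 1) % m + 1 ≡ i - 1 + 1 [MOD m] := h5.add_right 1
    have h7 : i - 1 + 1 = i := by omega
    rw [h7] at h6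
    exact h6.symm
  have hclass : ∀ t, i ≡ a + t * m [MOD m] := by
    intro t
    refine hai.trans ?_
    have : a + t * m ≡ a + 0 [MOD m] :=
      Nat.ModEq.add_left a (Nat.modEq_zero_iff_dvd.2 (Dvd.intro_left t rfl))
    simpa using this.symm
  have hmi : m ∣ σ i := by rw [him]
  -- the class of the multiples of `m` has exactly `n` positions
  have hlast : k < a + n * m := by
    by_contra hcon
    push Not at hcon
    have h1 : m ∣ σ (a + n * m) :=
      h.step hm hmk hi1 hi2 (by omega) hcon hmi (hclass n)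
    obtain ⟨t, ht, he⟩ := h.cls hm hmk hi1 hi2 (by omega) hcon hmi h1
    have h2 : t * m < n * m := Nat.mul_lt_mul_of_pos_right ht (by omega)
    omega
  have hpos : ∀ s, s ∈ Set.Icc 1 n → a + (s - 1) * m ∈ Set.Icc 1 k := by
    intro s hs
    obtain ⟨hs1, hs2⟩ := Set.mem_Icc.1 hs
    have h8 : s * m ≤ n * m := Nat.mul_le_mul_right m hs2
    obtain ⟨r, rfl⟩ : ∃ r, s = r + 1 := ⟨s - 1, by omega⟩
    have h9 : (r + 1) * m = r * m + m := by ring
    have h10 : r + 1 - 1 = r := by omega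
    rw [h10]
    exact Set.mem_Icc.2 ⟨by omega, by omega⟩
  have hdv : ∀ s, s ∈ Set.Icc 1 n → m ∣ σ (a + (s - 1) * m) := by
    intro s hs
    obtain ⟨hp1, hp2⟩ := Set.mem_Icc.1 (hpos s hs)
    exact h.step hm hmk hi1 hi2 hp1 hp2 hmi (hclass (s - 1))
  set τ : ℕ → ℕ := fun s => σ (a + (s - 1) * m) / m with hτ
  have hmul : ∀ s, s ∈ Set.Icc 1 n → τ s * m = σ (a + (s - 1) * m) := fun s hs =>
    Nat.div_mul_cancel (hdv s hs)
  have hmaps : Set.MapsTo τ (Set.Icc 1 n) (Set.Icc 1 n) := by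
    intro s hs
    obtain ⟨hp1, hp2⟩ := Set.mem_Icc.1 (hpos s hs)
    have hb := h.mem hp1 hp2
    exact Set.mem_Icc.2 ⟨(Nat.one_le_div_iff (by omega)).2 (Nat.le_of_dvd (by omega) (hdv s hs)),
      Nat.div_le_div_right hb.2⟩
  have hinj : Set.InjOn τ (Set.Icc 1 n) := by
    intro s hs t ht hst
    have h1 : σ (a + (s - 1) * m) = σ (a + (t - 1) * m) := by
      rw [← hmul s hs, ← hmul t ht, hst]
    obtain ⟨hp1, hp2⟩ := Set.mem_Icc.1 (hpos s hs)
    obtain ⟨hq1, hq2⟩ := Set.mem_Icc.1 (hpos t ht)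
    have h2 := h.inj hp1 hp2 hq1 hq2 h1
    have h3 : (s - 1) * m = (t - 1) * m := by omega
    have h4 := Nat.eq_of_mul_eq_mul_right (by omega : 0 < m) h3
    have := (Set.mem_Icc.1 hs).1
    have := (Set.mem_Icc.1 ht).1
    omega
  have hsurj : Set.SurjOn τ (Set.Icc 1 n) (Set.Icc 1 n) := by
    have h1 : Set.SurjOn τ (↑(Finset.Icc 1 n)) (↑(Finset.Icc 1 n)) := by
      apply Finset.surjOn_of_injOn_of_card_le
      · rw [Finset.coe_Icc]; exact hmaps
      · rw [Finset.coe_Icc]; exact hinj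
      · exact le_rfl
    rw [Finset.coe_Icc] at h1
    exact h1
  have hτW : Pool.Agent.Results.MP_537c9d_co.OneAtAnEnd.IsWCS n τ := by
    refine ⟨⟨hmaps, hinj, hsurj⟩, ?_⟩
    intro d hd s hs t ht hds hst
    have hd1 := (Set.mem_Icc.1 hd).1
    have h1 : d * m ∣ σ (a + (s - 1) * m) := by
      rw [← hmul s hs]
      exact Nat.mul_dvd_mul_right hds m
    have h2 : ((d * m : ℕ) : ℤ) ∣ ((a + (s - 1) * m : ℕ) : ℤ) - ((a + (t - 1) * m : ℕ) : ℤ) := by
      have hs1 := (Set.mem_Icc.1 hs).1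
      have ht1 := (Set.mem_Icc.1 ht).1
      have e : ((a + (s - 1) * m : ℕ) : ℤ) - ((a + (t - 1) * m : ℕ) : ℤ) =
          ((s : ℤ) - (t : ℤ)) * m := by
        push_cast [Nat.cast_sub hs1, Nat.cast_sub ht1]
        ring
      rw [e]
      push_cast
      exact mul_dvd_mul_right hst _
    have h3 := hσ.2 _ (hpos s hs) _ (hpos t ht) (d * m) (Nat.mul_pos (by omega) (by omega)) h1 h2
    rw [← hmul t ht] at h3
    exact Nat.dvd_of_mul_dvd_mul_right (by omega) h3
  rcases Pool.Agent.Results.MP_537c9d_co.OneAtAnEnd.result n hn1 τ hτW with h1 | h1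
  · have h2 := hmul 1 (Set.mem_Icc.2 ⟨le_rfl, hn1⟩)
    rw [h1, one_mul] at h2
    have h3 : a + (1 - 1) * m = a := by simp
    rw [h3] at h2
    have hak : a ≤ k := ham.trans hmk
    have h4 : i = a := h.inj hi1 hi2 (by omega) hak (him.trans h2)
    left
    exact Set.mem_Icc.2 ⟨hi1, by omega⟩
  · have hnn : n ∈ Set.Icc 1 n := Set.mem_Icc.2 ⟨hn1, le_rfl⟩
    have h2 := hmul n hnn
    rw [h1, one_mul] at h2
    obtain ⟨hp1, hp2⟩ := Set.mem_Icc.1 (hpos n hnn)
    have h4 : i = a + (n - 1) * m := h.inj hi1 hi2 hp1 hp2 (him.trans h2)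
    right
    obtain ⟨r, hr⟩ : ∃ r, n = r + 1 := ⟨n - 1, by omega⟩
    have h9 : n * m = r * m + m := by rw [hr]; ring
    have h10 : n - 1 = r := by omega
    rw [h10] at h4
    exact Set.mem_Icc.2 ⟨by omega, hi2⟩

end Pool.Agent.Results.MP_a4c3d5_co.SmallTermsNearEnds
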